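import Pool.Agent.X294.MT.Sym

/-!
# The coefficients of `α(n; 1..n-1, y)` are the refined numbers
-/

namespace Pool.Agent.X294.MT

/-- backward difference -/
def N : Module.End ℤ (ℤ → ℤ) where
  toFun f := fun y => f y - f (y - 1)
  map_add' f g := by funext y; simp only [Pi.add_apply]; ring
  map_smul' c f := by funext y; simp only [Pi.smul_apply, smul_eq_mul, RingHom.id_apply]; ring

theorem N_ap (f : ℤ → ℤ) (y : ℤ) : N f y = f y - f (y - 1) := rfl

theorem Npow_succ (j : ℕ) (f : ℤ → ℤ) : (N ^ (j + 1)) f = (N ^ j) (N f) := by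
  rw [pow_succ]; rfl

theorem Npow_succ' (j : ℕ) (f : ℤ → ℤ) : (N ^ (j + 1)) f = N ((N ^ j) f) := by
  rw [pow_succ']; rfl

theorem N_T (k : ℤ) (r : List ℤ) (j : ℕ) : ∀ A : ℤ → List ℤ → ℤ,
    (N ^ j) (fun y => X144.MT.T (A y) k r) =
      fun y => X144.MT.T (fun s => (N ^ j) (fun y => A y s) y) k r := by
  induction j with
  | zero => intro A; simp
  | succ j ih =>
    intro A
    rw [Npow_succ]
    have h : N (fun y => X144.MT.T (A y) k r) =
        fun y => X144.MT.T ((fun y s => A y s - A (y - 1) s) y) k r := by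
      funext y
      rw [N_ap, ← X144.MT.T_sub]
    rw [h, ih]
    funext y
    congr 1

theorem G_add (x y : ℤ) {A : Type*} [Ring A] (g : ℤ → A) : G g x y = G g x (y - 1) + g y := by
  unfold G
  rcases le_or_gt x y with hxy | hxy
  · have e1 : Finset.Ioo y x = ∅ := Finset.Ioo_eq_empty (by omega)
    have e2 : Finset.Ioo (y - 1) x = ∅ := by
      ext z; simp only [Finset.mem_Ioo, Finset.notMem_empty, iff_false]; omega
    have e3 : Finset.Icc x y = insert y (Finset.Icc x (y - 1)) := by
      ext z; simp only [Finset.mem_Icc, Finset.mem_insert]; omega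
    rw [e1, e2, e3, Finset.sum_insert (by simp)]
    simp only [Finset.sum_empty, sub_zero]
    abel
  · have e1 : Finset.Icc x y = ∅ := Finset.Icc_eq_empty (by omega)
    have e2 : Finset.Icc x (y - 1) = ∅ := Finset.Icc_eq_empty (by omega)
    have e3 : Finset.Ioo (y - 1) x = insert y (Finset.Ioo y x) := by
      ext z; simp only [Finset.mem_Ioo, Finset.mem_insert]; omega
    rw [e1, e2, e3, Finset.sum_insert (by simp)]
    simp

/-- one difference in the last variable -/
theorem N_last (k : ℤ) (r : List ℤ) : N (fun y => alL ((k :: r) ++ [y])) =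
    fun y => X144.MT.T (fun s => alL (s ++ [y])) k r := by
  funext y
  rw [N_ap]
  obtain ⟨l', x, hx⟩ : ∃ (l' : List ℤ) (x : ℤ), k :: r = l' ++ [x] :=
    ⟨(k :: r).dropLast, (k :: r).getLast (by simp), (List.dropLast_append_getLast (by simp)).symm⟩
  have h : ∀ y, alL ((k :: r) ++ [y]) =
      ((D lt (k :: r) * G lt x y) aM).1 [] - ((D lt l' * (lt x * lt x)) aM).1 [] := by
    intro y
    rw [alL_eq' (by simp), hx, List.append_assoc, List.cons_append, List.nil_append, D_split]
    simp only [D_single, D_nil, mul_one, mul_zero, sub_zero]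
    rw [sub_ap]
  rw [h, h, G_add x y lt, mul_add, add_ap]
  have h2 : ((D lt (k :: r) * lt y) aM).1 [] = X144.MT.T (fun s => alL (s ++ [y])) k r := by
    have : ((D lt (k :: r) * lt y) aM).1 [] = ((D lt (k :: r)) (lt y aM)).1 [] := rfl
    rw [this, D_ap]
    rfl
  rw [h2]
  ring

/-- the degree in the last variable -/
theorem deg_last (m : ℕ) : ∀ l : List ℤ, l.length = m →
    (N ^ (m + 1)) (fun y => alL (l ++ [y])) = 0 := by
  induction m with
  | zero =>
    intro l hl
    have : l = [] := List.length_eq_zero_iff.1 hl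
    subst this
    rw [Npow_succ, pow_zero]
    funext y
    simp only [Module.End.one_apply, N_ap, List.nil_append, Pi.zero_apply]
    have h : ∀ z : ℤ, alL [z] = 1 := by
      intro z
      rw [alL_eq, D_single]
      show alL [] = 1
      simp [alL, X144.MT.al]
    rw [h, h]; ring
  | succ m ih =>
    intro l hl
    rcases l with _ | ⟨k, r⟩
    · simp at hl
    have hr : r.length = m := by simpa using hl
    rw [Npow_succ, N_last, N_T]
    funext y
    rw [Pi.zero_apply, ← X144.MT.T_zero r k]
    apply T_congr_len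
    intro s hs
    rw [ih s (by rw [hs, hr])]
    rfl

theorem deg_mix (T : ℤ) (j : ℕ) (pre : List ℤ) : ∀ (F : List ℤ → ℤ),
    (∀ w : List ℤ, w.length = pre.length → (N ^ j) (fun y => F (w ++ [y])) = 0) →
    (N ^ j) (fun y => MP T pre F [y]) = 0 := by
  induction pre with
  | nil =>
    intro F h
    have := h [] rfl
    simpa [MP] using this
  | cons x pre ih =>
    intro F h
    have e : (fun y => MP T (x :: pre) F [y]) =
        (T + 1) • (fun y => MP T pre (fun w => F (x :: w)) [y]) -
          (fun y => MP T pre (fun w => F ((x - 1) :: w)) [y]) := by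
      funext y
      rw [MP_cons]
      rfl
    rw [e, map_sub, map_smul, ih (fun w => F (x :: w)) (fun w hw => h (x :: w) (by simp [hw])),
      ih (fun w => F ((x - 1) :: w)) (fun w hw => h ((x - 1) :: w) (by simp [hw]))]
    simp

theorem tele (T : ℤ) (a : ℕ → ℤ) (i : ℕ) :
    ∑ j ∈ Finset.range (i + 1), (-1 : ℤ) ^ j * T ^ (i - j) * (T * a j + a (j + 1)) =
      T ^ (i + 1) * a 0 + (-1) ^ i * a (i + 1) := by
  induction i with
  | zero => simp
  | succ i ih =>
    rw [Finset.sum_range_succ]
    have h : ∑ j ∈ Finset.range (i + 1), (-1 : ℤ) ^ j * T ^ (i + 1 - j) * (T * a j + a (j + 1)) =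
        T * ∑ j ∈ Finset.range (i + 1), (-1 : ℤ) ^ j * T ^ (i - j) * (T * a j + a (j + 1)) := by
      rw [Finset.mul_sum]
      apply Finset.sum_congr rfl
      intro j hj
      have hj' : j ≤ i := by simpa [Nat.lt_succ_iff] using hj
      rw [show i + 1 - j = (i - j) + 1 by omega]
      ring
    rw [h, ih]
    simp
    ring

theorem coeffs_zero (i : ℕ) (c : ℕ → ℤ)
    (h : ∀ T : ℤ, T ≠ 0 → ∑ j ∈ Finset.range (i + 1), c j * T ^ (i - j) = 0) :
    ∀ j ≤ i, c j = 0 := by
  set p : Polynomial ℤ := ∑ j ∈ Finset.range (i + 1), Polynomial.C (c j) * Polynomial.X ^ (i - j)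
    with hp
  have hp0 : p = 0 := by
    apply Polynomial.eq_zero_of_infinite_isRoot
    apply Set.infinite_of_injective_forall_mem (f := fun l : ℕ => ((l : ℤ) + 1))
    · intro a b hab
      simp only at hab
      omega
    · intro l
      show Polynomial.IsRoot p _
      rw [Polynomial.IsRoot.def, hp, Polynomial.eval_finset_sum]
      simp only [Polynomial.eval_mul, Polynomial.eval_C, Polynomial.eval_pow, Polynomial.eval_X]
      exact h _ (by omega)
  intro j hj
  have h1 : p.coeff (i - j) = c j := by
    rw [hp, Polynomial.finset_sum_coeff]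
    rw [Finset.sum_eq_single j]
    · rw [Polynomial.coeff_C_mul, Polynomial.coeff_X_pow, if_pos rfl, mul_one]
    · intro b hb hbj
      have hb' : b ≤ i := by simpa [Nat.lt_succ_iff] using hb
      rw [Polynomial.coeff_C_mul, Polynomial.coeff_X_pow, if_neg (by omega), mul_zero]
    · intro hj'
      exact absurd (Finset.mem_range.2 (by omega)) hj'
  rw [← h1, hp0, Polynomial.coeff_zero]

theorem const_zero (y0 : ℤ) (d : ℕ) : ∀ v : ℤ → ℤ, (N ^ d) v = 0 →
    (∀ j < d, ((N ^ j) v) y0 = 0) → v = 0 := by
  induction d with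
  | zero => intro v h _; simpa using h
  | succ d ih =>
    intro v h h0
    have h1 : N v = 0 := by
      apply ih (N v)
      · rw [← Npow_succ]; exact h
      · intro j hj
        rw [← Npow_succ]
        exact h0 (j + 1) (by omega)
    have h2 : ∀ y, v y = v (y - 1) := by
      intro y
      have := congrFun h1 y
      rw [N_ap, Pi.zero_apply] at this
      linarith
    have h3 : v y0 = 0 := by simpa using h0 0 (by omega)
    funext y
    rw [Pi.zero_apply]
    have h4 : ∀ n : ℕ, v (y0 + n) = 0 := by
      intro n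
      induction n with
      | zero => simpa using h3
      | succ n ihn =>
        rw [h2, ← ihn]; congr 1; push_cast; ring
    have h5 : ∀ n : ℕ, v (y0 - n) = 0 := by
      intro n
      induction n with
      | zero => simpa using h3
      | succ n ihn =>
        rw [← ihn, h2 (y0 - n)]; congr 1; push_cast; ring
    rcases le_total y0 y with h | h
    · obtain ⟨n, rfl⟩ := Int.le.dest h
      exact h4 n
    · obtain ⟨n, hn⟩ := Int.le.dest h
      have : y = y0 - n := by omega
      rw [this]; exact h5 n

/-- the basis -/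
def be (i m : ℕ) (y : ℤ) : ℤ := Ring.choose (y - i - 1 + m) m

theorem N_be_succ (i m : ℕ) : N (be i (m + 1)) = be i m := by
  funext y
  rw [N_ap]
  unfold be
  have h := Ring.choose_succ_succ (y - i - 1 + m) m
  have e1 : y - i - 1 + ((m + 1 : ℕ) : ℤ) = y - i - 1 + m + 1 := by push_cast; ring
  have e2 : y - 1 - i - 1 + ((m + 1 : ℕ) : ℤ) = y - i - 1 + m := by push_cast; ring
  rw [e1, e2, h]
  ring

theorem N_be_zero (i : ℕ) : N (be i 0) = 0 := by
  funext y
  rw [N_ap]
  simp [be, Ring.choose_zero_right]

theorem Npow_be (i j : ℕ) : ∀ m, (N ^ j) (be i m) = if j ≤ m then be i (m - j) else 0 := by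
  induction j with
  | zero => intro m; simp
  | succ j ih =>
    intro m
    rw [Npow_succ]
    rcases m with _ | m
    · rw [N_be_zero, map_zero, if_neg (by omega)]
    · rw [N_be_succ, ih]
      by_cases h : j ≤ m
      · rw [if_pos h, if_pos (by omega)]
        congr 1
        omega
      · rw [if_neg h, if_neg (by omega)]

theorem be_at (i m : ℕ) : be i m i = if m = 0 then 1 else 0 := by
  unfold be
  rcases m with _ | m
  · simp [Ring.choose_zero_right]
  · have e : (i : ℤ) - i - 1 + ((m + 1 : ℕ) : ℤ) = (m : ℤ) := by push_cast; ring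
    rw [e, Ring.choose_natCast, Nat.choose_succ_self]
    simp

/-- the refined numbers as coefficients -/
theorem phi_eq (i : ℕ) (y : ℤ) : alL (I 1 i ++ [y]) =
    ∑ m ∈ Finset.range (i + 1), alL (I 0 m ++ I (m + 1) (i - m)) * be i m y := by
  set φ : ℤ → ℤ := fun y => alL (I 1 i ++ [y]) with hφ
  set Br : ℕ → ℤ := fun m => alL (I 0 m ++ I (m + 1) (i - m)) with hBr
  have hlen : (I 1 i).length = i := by
    rw [← ofFn_I]; simp
  have hdeg : (N ^ (i + 1)) φ = 0 := deg_last i _ hlen
  -- the differences at `i`
  have hdiff : ∀ j ≤ i, ((N ^ j) φ) i = Br j := by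
    have key : ∀ T : ℤ, T ≠ 0 → ∑ j ∈ Finset.range (i + 1),
        ((-1 : ℤ) ^ j * (((N ^ j) φ) i - Br j)) * T ^ (i - j) = 0 := by
      intro T hT
      set H : ℤ → ℤ := fun y => MP T (I 1 i) alL [y] with hH
      have hH0 : (N ^ (i + 1)) H = 0 := by
        apply deg_mix
        intro w hw
        rw [hlen] at hw
        exact deg_last i w hw
      have hrel : T • H + N H = T ^ (i + 1) • φ := by
        funext y
        simp only [Pi.add_apply, Pi.smul_apply, smul_eq_mul, N_ap]
        have h1 := ML T (I 1 i ++ [y])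
        rw [MP_snoc, List.length_append, hlen] at h1
        simp only [List.length_cons, List.length_nil, zero_add, smul_eq_mul] at h1
        simp only [hH, hφ]
        linarith
      have h2 := tele T (fun j => ((N ^ j) H) i) i
      have h3 : ∀ j, T * ((N ^ j) H) i + ((N ^ (j + 1)) H) i = T ^ (i + 1) * ((N ^ j) φ) i := by
        intro j
        have := congrArg (fun f => ((N ^ j) f) (i : ℤ)) hrel
        simp only [map_add, map_smul] at this
        rw [Npow_succ]
        exact this
      simp only [h3] at h2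
      rw [hH0] at h2
      simp only [Pi.zero_apply, mul_zero, add_zero, pow_zero, Module.End.one_apply] at h2
      have h4 : H i = ∑ j ∈ Finset.range (i + 1), (-1 : ℤ) ^ j * T ^ (i - j) * Br j := mix_al T i
      have h5 : T ^ (i + 1) * ∑ j ∈ Finset.range (i + 1),
          ((-1 : ℤ) ^ j * (((N ^ j) φ) i - Br j)) * T ^ (i - j) = 0 := by
        have h6 : ∑ j ∈ Finset.range (i + 1), (-1 : ℤ) ^ j * T ^ (i - j) *
            (T ^ (i + 1) * ((N ^ j) φ) i) =
            T ^ (i + 1) * ∑ j ∈ Finset.range (i + 1), (-1 : ℤ) ^ j * T ^ (i - j) *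
              ((N ^ j) φ) i := by
          rw [Finset.mul_sum]
          exact Finset.sum_congr rfl fun j _ => by ring
        rw [h6] at h2
        have h7 : ∑ j ∈ Finset.range (i + 1), ((-1 : ℤ) ^ j * (((N ^ j) φ) i - Br j)) * T ^ (i - j) =
            ∑ j ∈ Finset.range (i + 1), (-1 : ℤ) ^ j * T ^ (i - j) * ((N ^ j) φ) i -
              ∑ j ∈ Finset.range (i + 1), (-1 : ℤ) ^ j * T ^ (i - j) * Br j := by
          rw [← Finset.sum_sub_distrib]
          exact Finset.sum_congr rfl fun j _ => by ring
        rw [h7, mul_sub, h2, ← h4]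
        ring
      rcases mul_eq_zero.1 h5 with h | h
      · exact absurd h (pow_ne_zero _ hT)
      · exact h
    intro j hj
    have := coeffs_zero i _ key j hj
    rcases mul_eq_zero.1 this with h | h
    · exact absurd h (pow_ne_zero _ (by norm_num))
    · linarith
  set B : ℤ → ℤ := ∑ m ∈ Finset.range (i + 1), Br m • be i m with hB
  have hv : φ - B = 0 := by
    apply const_zero (i : ℤ) (i + 1)
    · rw [map_sub, hdeg, hB, map_sum]
      simp only [map_smul, Npow_be]
      rw [zero_sub, neg_eq_zero]
      apply Finset.sum_eq_zero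
      intro m hm
      have hm' := Finset.mem_range.1 hm
      rw [if_neg (by omega), smul_zero]
    · intro j hj
      rw [map_sub, Pi.sub_apply, hdiff j (by omega), hB, map_sum]
      simp only [map_smul, Npow_be]
      rw [Finset.sum_apply, Finset.sum_eq_single j]
      · rw [if_pos le_rfl, Nat.sub_self, Pi.smul_apply, be_at, if_pos rfl]
        simp
      · intro m _ hmj
        by_cases h : j ≤ m
        · rw [if_pos h, Pi.smul_apply, be_at, if_neg (by omega), smul_zero]
        · rw [if_neg h, smul_zero]; rfl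
      · intro h
        exact absurd (Finset.mem_range.2 hj) h
  have := congrFun (sub_eq_zero.1 hv) y
  simp only [hφ, hB, Finset.sum_apply, Pi.smul_apply, smul_eq_mul] at this
  exact this

end Pool.Agent.X294.MT
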