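import Pool.Agent.X294.MT.Trans

/-!
# The value `T_k(n)` as a sum of refined numbers
-/

namespace Pool.Agent.X294.MT

/-- refined numbers: the row `1..n` without `i+1` -/
noncomputable def Ar (n i : ℕ) : ℤ := alL (I 1 i ++ I (i + 2) (n - 1 - i))

theorem W_ap' (l : List ℤ) : ((W lt l) aM).1 [] = alL l := by
  rw [W_ap]; rfl

theorem swap_word (a : ℤ) : lt a * lt (a + 1) * lt a * lt (a + 1) =
    lt (a + 1) * lt (a + 1) * lt a * lt a := by
  have q1 := r1 a
  have q2 := r2 a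
  have q2' := r2 (a + 1)
  generalize lt a = x at *
  generalize lt (a + 1) = y at *
  have e : x * y * x * y = (x * y) * (x * y) := by noncomm_ring
  rw [e, q1]
  have e2 : (x * x + y * y) * (x * x + y * y) = (x * x * x) * x + x * (x * y) * y + y * y * x * x
      + y * (y * y * y) := by noncomm_ring
  rw [e2, q1, q2, q2']
  have e3 : x * (x * x + y * y) * y = (x * x * x) * y + x * (y * y * y) := by noncomm_ring
  rw [e3, q2, q2']
  simp

/-- the word `u_j` -/
def uw (p r j : ℕ) : List ℤ := I 1 j ++ ((j : ℤ) + 2) :: I (j + 2) (p + r + 2 - j)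

theorem D_T (p r : ℕ) :
    D lt (I 1 p ++ ((p : ℤ) + 3) :: ((p : ℤ) + 3) :: ((p : ℤ) + 2) :: ((p : ℤ) + 2) ::
      I ((p : ℤ) + 4) r) = ∑ j ∈ Finset.range (p + 1), W lt (uw p r j) := by
  have h := key lt r1 r2 r3 1 p r
  have s := sumU lt r1 r2 1 p
  have e1 : (1 : ℤ) + p + 1 = p + 2 := by ring
  have e2 : (1 : ℤ) + p + 2 = p + 3 := by ring
  have e3 : (1 : ℤ) + p + 3 = p + 4 := by ring
  rw [e1, e2, e3] at h
  rw [e1] at s
  rw [h, ← s, Finset.sum_mul, Finset.sum_mul]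
  apply Finset.sum_congr rfl
  intro j hj
  have hj' : j ≤ p := by simpa [Nat.lt_succ_iff] using hj
  unfold uw
  have e4 : (1 : ℤ) + j + 1 = j + 2 := by ring
  have e5 : p + r + 2 - j = (p - j + 1) + (r + 1) := by omega
  have e6 : (j : ℤ) + 2 + ((p - j + 1 : ℕ) : ℤ) = p + 3 := by
    push_cast [Nat.cast_sub hj']; ring
  rw [e4, e5, I_append ((j : ℤ) + 2) (p - j + 1) (r + 1), e6]
  have e7 : I ((p : ℤ) + 3) (r + 1) = ((p : ℤ) + 3) :: I (p + 4) r := by
    show ((p : ℤ) + 3) :: I (p + 3 + 1) r = _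
    rw [show (p : ℤ) + 3 + 1 = p + 4 by ring]
  rw [e7]
  simp only [W_append, W_cons, mul_assoc]

theorem al_u (p r j : ℕ) (hj : j ≤ p) :
    alL (uw p r j) = ∑ i ∈ Finset.range (j + 1), Ar (p + r + 3) i := by
  have hne : uw p r j ≠ [] := by simp [uw]
  rw [alL_eq' hne]
  unfold uw
  have e : p + r + 2 - j = (p + r + 1 - j) + 1 := by omega
  have h := D_u lt r2 1 j (p + r + 1 - j)
  have e4 : (1 : ℤ) + j + 1 = j + 2 := by ring
  rw [e4, ← e] at h
  rw [h, D_sum, Finset.sum_mul, sum_ap]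
  apply Finset.sum_congr rfl
  intro i hi
  have hi' : i ≤ j := by simpa [Nat.lt_succ_iff] using hi
  have e5 : (1 : ℤ) + i + 1 = i + 2 := by ring
  rw [← W_append, W_ap', e5, List.append_assoc]
  unfold Ar
  have e6 : p + r + 3 - 1 - i = (j - i) + (p + r + 2 - j) := by omega
  have e7 : (i : ℤ) + 2 + ((j - i : ℕ) : ℤ) = j + 2 := by
    push_cast [Nat.cast_sub hi']; ring
  rw [e6, I_append, e7]

/-- `T_k(n)` for `k = p + 3`, `n = p + 3 + r` -/
theorem Tk_eq (p r : ℕ) :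
    alL (I 1 p ++ ((p : ℤ) + 2) :: ((p : ℤ) + 3) :: ((p : ℤ) + 2) :: ((p : ℤ) + 3) ::
      I ((p : ℤ) + 4) r) =
      ∑ i ∈ Finset.range (p + 1), ((p : ℤ) + 1 - i) * Ar (p + r + 3) i := by
  have h1 : alL (I 1 p ++ ((p : ℤ) + 2) :: ((p : ℤ) + 3) :: ((p : ℤ) + 2) :: ((p : ℤ) + 3) ::
      I ((p : ℤ) + 4) r) = alL (I 1 p ++ ((p : ℤ) + 3) :: ((p : ℤ) + 3) :: ((p : ℤ) + 2) ::
      ((p : ℤ) + 2) :: I ((p : ℤ) + 4) r) := by
    rw [← W_ap', ← W_ap']
    congr 2
    have h := swap_word ((p : ℤ) + 2)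
    rw [show (p : ℤ) + 2 + 1 = p + 3 by ring] at h
    simp only [W_append, W_cons]
    have e : ∀ x y z w v : AddMonoid.End M, x * (y * (z * (w * v))) = (x * y * z * w) * v := by
      intro x y z w v; noncomm_ring
    rw [e (lt ((p : ℤ) + 2)) (lt ((p : ℤ) + 3)) (lt ((p : ℤ) + 2)) (lt ((p : ℤ) + 3)),
      e (lt ((p : ℤ) + 3)) (lt ((p : ℤ) + 3)) (lt ((p : ℤ) + 2)) (lt ((p : ℤ) + 2)), h]
  rw [h1, alL_eq' (by simp), D_T, sum_ap]
  have h2 : ∀ j ∈ Finset.range (p + 1), ((W lt (uw p r j)) aM).1 [] =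
      ∑ i ∈ Finset.range (j + 1), Ar (p + r + 3) i := by
    intro j hj
    have hj' : j ≤ p := by simpa [Nat.lt_succ_iff] using hj
    rw [W_ap', al_u p r j hj']
  rw [Finset.sum_congr rfl h2]
  generalize Ar (p + r + 3) = f
  clear h1 h2
  induction p with
  | zero => simp
  | succ p ih =>
    rw [Finset.sum_range_succ, ih, Finset.sum_range_succ f (p + 1),
      Finset.sum_range_succ (fun i : ℕ => (((p + 1 : ℕ) : ℤ) + 1 - i) * f i) (p + 1)]
    have : ∑ i ∈ Finset.range (p + 1), (((p + 1 : ℕ) : ℤ) + 1 - i) * f i =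
        ∑ i ∈ Finset.range (p + 1), ((p : ℤ) + 1 - i) * f i + ∑ i ∈ Finset.range (p + 1), f i := by
      rw [← Finset.sum_add_distrib]
      apply Finset.sum_congr rfl
      intro i _
      push_cast; ring
    rw [this]
    push_cast
    ring

/-- the mixing identity for `alL` -/
theorem mix_al (T : ℤ) (i : ℕ) : MP T (I 1 i) alL [(i : ℤ)] =
    ∑ j ∈ Finset.range (i + 1), (-1 : ℤ) ^ j * T ^ (i - j) * alL (I 0 j ++ I (j + 1) (i - j)) := by
  have h := MP_D_last lt T r2 i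
  have h2 := congrArg (evl aM []) h
  rw [MP_map, V_eq, map_sum] at h2
  have h3 : (fun w => evl aM [] (D lt w)) = fun w => if w = [] then 0 else alL w := by
    funext w
    rcases w with _ | ⟨k, r⟩
    · simp
    · rw [if_neg (by simp), alL_eq, evl_ap]
  have h4 : ∀ (pre : List ℤ) (F F' : List ℤ → ℤ) (l : List ℤ), l ≠ [] →
      (∀ w, w ≠ [] → F w = F' w) → MP T pre F l = MP T pre F' l := by
    intro pre
    induction pre with
    | nil => intro F F' l hl h; exact h l hl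
    | cons x pre ih =>
      intro F F' l hl h
      rw [MP_cons, MP_cons, ih _ (fun w => F' (x :: w)) l hl (fun w _ => h _ (by simp)),
        ih _ (fun w => F' ((x - 1) :: w)) l hl (fun w _ => h _ (by simp))]
  rw [h3, h4 _ _ alL _ (by simp) (fun w hw => by simp [hw])] at h2
  rw [h2]
  apply Finset.sum_congr rfl
  intro j _
  rw [map_zsmul, evl_ap, W_ap', smul_eq_mul]

end Pool.Agent.X294.MT
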