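import Pool.Agent.X177.MT.Tri
import Pool.Agent.X294.MT.Tk

/-!
# The two forms of the monotone triangle polynomial; parity; the symmetric function relation
-/

namespace Pool.Agent.X294.MT

open Pool.Agent.X177.MT (GG IL mem_IL W_rec W_zero IsPoly isPoly_W rf rotation translation
  reflection ev SS ev_GG_prod ev_monomial_mul)


theorem RF_eq_image {n : ℕ} (k : Fin (n + 1) → ℤ) (hk : StrictMono k) :
    X144.MT.RF (k 0) (List.ofFn fun i : Fin n => k i.succ) = (IL k).image List.ofFn := by
  classical
  have hp : (k 0 :: List.ofFn fun i : Fin n => k i.succ).Pairwise (· < ·) := by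
    rw [← List.ofFn_succ]
    exact X144.MT.pairwise_ofFn_strict hk
  ext l
  rw [X144.MT.mem_RF _ _ (X144.MT.Wk_of_pairwise hp), ← List.ofFn_succ, Finset.mem_image]
  constructor
  · rintro ⟨⟨h1, h2⟩, h3⟩
    have hl : l.length = n := by simpa using h1
    subst hl
    refine ⟨fun i => l.getD i 0, ?_, ?_⟩
    · rw [mem_IL]
      constructor
      · intro i
        have := h2 i i.2
        have e1 : (List.ofFn k).getD (i : ℕ) 0 = k i.castSucc := by
          rw [List.getD_eq_getElem _ _ (by simp), List.getElem_ofFn]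
          rfl
        have e2 : (List.ofFn k).getD ((i : ℕ) + 1) 0 = k i.succ := by
          rw [List.getD_eq_getElem _ _ (by simp), List.getElem_ofFn]
          rfl
        rw [e1, e2] at this
        exact this
      · intro i j hij
        simp only
        rw [List.getD_eq_getElem _ _ i.2, List.getD_eq_getElem _ _ j.2]
        exact List.pairwise_iff_getElem.1 h3 i j i.2 j.2 hij
    · apply List.ext_getElem
      · simp
      · intro m h1 h2
        rw [List.getElem_ofFn, List.getD_eq_getElem _ _ h2]
  · rintro ⟨f, hf, rfl⟩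
    rw [mem_IL] at hf
    refine ⟨⟨by simp, ?_⟩, X144.MT.pairwise_ofFn_strict hf.2⟩
    intro j hj
    have hj' : j < n := by simpa using hj
    have e1 : (List.ofFn k).getD j 0 = k (Fin.castSucc ⟨j, hj'⟩) := by
      rw [List.getD_eq_getElem _ _ (by simp; omega), List.getElem_ofFn]
      rfl
    have e2 : (List.ofFn k).getD (j + 1) 0 = k (Fin.succ ⟨j, hj'⟩) := by
      rw [List.getD_eq_getElem _ _ (by simp; omega), List.getElem_ofFn]
      rfl
    have e3 : (List.ofFn f).getD j 0 = f ⟨j, hj'⟩ := by
      rw [List.getD_eq_getElem _ _ (by simp; omega), List.getElem_ofFn]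
    rw [e1, e2, e3]
    exact hf.1 ⟨j, hj'⟩

theorem al_mono (n : ℕ) : ∀ k : Fin n → ℤ, StrictMono k →
    (X144.MT.al n (List.ofFn k) : ℚ) = X177.MT.W (GG n) k := by
  classical
  induction n with
  | zero =>
    intro k _
    rw [W_zero]
    simp [X144.MT.al]
  | succ n ih =>
    intro k hk
    have hp : (k 0 :: List.ofFn fun i : Fin n => k i.succ).Pairwise (· < ·) := by
      rw [← List.ofFn_succ]
      exact X144.MT.pairwise_ofFn_strict hk
    rw [W_rec n k hk, List.ofFn_succ]
    have h1 : X144.MT.al (n + 1) (k 0 :: List.ofFn fun i : Fin n => k i.succ) =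
        X144.MT.T (X144.MT.al n) (k 0) (List.ofFn fun i : Fin n => k i.succ) := rfl
    rw [h1, X144.MT.T_eq_sum _ _ _ (X144.MT.Wk_of_pairwise hp), RF_eq_image k hk,
      Finset.sum_image (fun a _ b _ h => List.ofFn_injective h)]
    push_cast
    apply Finset.sum_congr rfl
    intro l hl
    rw [mem_IL] at hl
    exact ih l hl.2

theorem al_W (n : ℕ) (k : Fin n → ℤ) : (X144.MT.al n (List.ofFn k) : ℚ) = X177.MT.W (GG n) k := by
  refine IsPoly.ext_strictMono (f := fun k => (X144.MT.al n (List.ofFn k) : ℚ)) ?_ (isPoly_W n)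
    (al_mono n) k
  obtain ⟨Q, hQ⟩ := (X144.MT.PL_al n).exists_poly
  exact ⟨Q, hQ⟩

theorem ofFn_I (m : ℕ) : ∀ c : ℤ, List.ofFn (fun i : Fin m => c + (i : ℕ)) = I c m := by
  induction m with
  | zero => intro c; simp [I]
  | succ m ih =>
    intro c
    rw [List.ofFn_succ, I, ← ih (c + 1)]
    simp only [Fin.val_zero, Nat.cast_zero, add_zero, Fin.val_succ]
    congr 2
    funext i
    push_cast; ring

/-- parity -/
theorem parity (m : ℕ) (y : ℤ) : alL (I 1 m ++ [-y]) = (-1) ^ m * alL (I 1 m ++ [y]) := by
  set kk : ℤ → Fin (m + 1) → ℤ := fun y i => if i = Fin.last m then y else 1 + (i : ℕ) with hkk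
  have hl : ∀ y, alL (I 1 m ++ [y]) = X144.MT.al (m + 1) (List.ofFn (kk y)) := by
    intro y
    have e : List.ofFn (kk y) = I 1 m ++ [y] := by
      rw [List.ofFn_succ', List.concat_eq_append, ← ofFn_I m 1]
      congr 1
      · congr 1
        funext i
        simp [hkk, (Fin.castSucc_lt_last i).ne]
      · simp [hkk]
    rw [e]
    unfold alL
    have : (I 1 m ++ [y]).length = m + 1 := by rw [← e]; simp
    rw [this]
  have hq : ((alL (I 1 m ++ [-y]) : ℤ) : ℚ) = (-1) ^ m * ((alL (I 1 m ++ [y]) : ℤ) : ℚ) := by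
    rw [hl, hl, al_W, al_W]
    set k' : Fin (m + 1) → ℤ := fun i => if i = 0 then y + m + 1 else (i : ℕ) with hk'
    have h1 := rotation m k'
    have e1 : (fun i => if i = Fin.last m then k' 0 - ((m : ℤ) + 1)
        else k' (finRotate (m + 1) i)) = kk y := by
      funext i
      simp only [hkk]
      split_ifs with h
      · simp only [hk', if_true]; ring
      · have h2 : ((finRotate (m + 1) i : Fin (m + 1)) : ℕ) = i + 1 := coe_finRotate_of_ne_last h
        have h3 : finRotate (m + 1) i ≠ 0 := by
          intro h0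
          rw [h0] at h2
          simp at h2
        simp only [hk', if_neg h3]
        rw [h2]; push_cast; ring
    rw [e1] at h1
    have h2 := reflection (m + 1) k'
    have h3 := translation (m + 1) (rf k') ((m : ℤ) + 1)
    have e2 : (fun i => rf k' i + ((m : ℤ) + 1)) = kk (-y) := by
      funext i
      simp only [hkk, rf, hk']
      have hrev : i.rev = 0 ↔ i = Fin.last m := by
        rw [Fin.rev_eq_iff, Fin.rev_zero]
      by_cases h : i = Fin.last m
      · rw [if_pos (hrev.2 h), if_pos h]; ring
      · rw [if_neg (fun hh => h (hrev.1 hh)), if_neg h]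
        have : ((i.rev : Fin (m + 1)) : ℕ) = m - i := by
          rw [Fin.val_rev]; omega
        rw [this]
        have hi : (i : ℕ) ≤ m := by omega
        push_cast [Nat.cast_sub hi]
        ring
    rw [e2] at h3
    rw [h3, h2, h1]
  exact_mod_cast hq

end Pool.Agent.X294.MT
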