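import Pool.Agent.X294.MT.Ring

/-!
# The mixing identity

`MP T pre F l`: every letter `x` of the prefix `pre` is replaced by `(T+1)[x] - [x-1]`.
-/

namespace Pool.Agent.X294.MT

/-- mixing the letters of the prefix -/
def MP {X : Type*} [AddCommGroup X] (T : ℤ) : List ℤ → (List ℤ → X) → List ℤ → X
  | [], F, l => F l
  | x :: pre, F, l => (T + 1) • MP T pre (fun w => F (x :: w)) l
      - MP T pre (fun w => F ((x - 1) :: w)) l

section gen
variable {X Y : Type*} [AddCommGroup X] [AddCommGroup Y] (T : ℤ)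

theorem MP_nil (F : List ℤ → X) (l : List ℤ) : MP T [] F l = F l := rfl

theorem MP_cons (x : ℤ) (pre : List ℤ) (F : List ℤ → X) (l : List ℤ) :
    MP T (x :: pre) F l = (T + 1) • MP T pre (fun w => F (x :: w)) l
      - MP T pre (fun w => F ((x - 1) :: w)) l := rfl

theorem MP_snoc (x : ℤ) (pre : List ℤ) : ∀ (F : List ℤ → X) (l : List ℤ),
    MP T (pre ++ [x]) F l = (T + 1) • MP T pre F (x :: l) - MP T pre F ((x - 1) :: l) := by
  induction pre with
  | nil => intro F l; simp [MP]
  | cons z pre ih =>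
    intro F l
    rw [List.cons_append, MP_cons, ih, ih, MP_cons, MP_cons]
    module

theorem MP_map (φ : X →+ Y) (pre : List ℤ) : ∀ (F : List ℤ → X) (l : List ℤ),
    φ (MP T pre F l) = MP T pre (fun w => φ (F w)) l := by
  induction pre with
  | nil => intro F l; rfl
  | cons z pre ih =>
    intro F l
    rw [MP_cons, MP_cons, map_sub, map_zsmul, ih, ih]

end gen

variable {A : Type*} [Ring A] (g : ℤ → A) (T : ℤ)

/-- `V i = Σ_j (-1)^j T^(i-j) (0..ĵ..i)` -/
noncomputable def V : ℕ → A
  | 0 => 1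
  | i + 1 => T • (V i * g (i + 1)) + (-1 : ℤ) ^ (i + 1) • W g (I 0 (i + 1))

noncomputable def Q : ℕ → A
  | 0 => 0
  | i + 1 => T • V g T i + (T + 1) • (Q i * g (i + 1))

theorem V_succ (i : ℕ) : V g T (i + 1) = T • (V g T i * g (i + 1)) +
    (-1 : ℤ) ^ (i + 1) • W g (I 0 (i + 1)) := rfl

theorem Q_succ (i : ℕ) : Q g T (i + 1) = T • V g T i + (T + 1) • (Q g T i * g (i + 1)) := rfl

theorem inv (h2 : ∀ x, g x * g x * g x = 0) (i : ℕ) :
    Q g T i * (g i * g i) - V g T i * g i = (-1 : ℤ) ^ (i + 1) • W g (I 0 (i + 1)) := by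
  cases i with
  | zero => simp [Q, V, I]
  | succ i =>
    have e : (I 0 (i + 1 + 1) : List ℤ) = I 0 (i + 1) ++ [(i : ℤ) + 1] := by
      rw [I_snoc]; push_cast; simp
    rw [Q_succ, V_succ, e, W_append]
    push_cast
    have q := h2 ((i : ℤ) + 1)
    have hw : W g [(i : ℤ) + 1] = g (i + 1) := by simp
    rw [hw]
    generalize g ((i : ℤ) + 1) = b at *
    generalize W g (I 0 (i + 1)) = w
    generalize V g T i = v
    generalize Q g T i = r
    have q' : r * (b * (b * b)) = 0 := by rw [← mul_assoc b b b, q, mul_zero]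
    have e1 : (-1 : ℤ) ^ (i + 1 + 1) = - (-1 : ℤ) ^ (i + 1) := by ring
    rw [e1]
    simp only [add_mul, smul_mul_assoc, mul_assoc, q', smul_zero]
    module

theorem G_all (x y : ℤ) : G g x y = g x + G g (x + 1) y := by
  unfold G
  rcases le_or_gt x y with h | h
  · have e1 : Finset.Ioo y x = ∅ := Finset.Ioo_eq_empty (by omega)
    have e2 : Finset.Ioo y (x + 1) = ∅ := by
      ext z; simp only [Finset.mem_Ioo, Finset.notMem_empty, iff_false]; omega
    have e3 : Finset.Icc x y = insert x (Finset.Icc (x + 1) y) := by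
      ext z; simp only [Finset.mem_Icc, Finset.mem_insert]; omega
    rw [e1, e2, e3, Finset.sum_insert (by simp)]
    simp
  · have e1 : Finset.Icc x y = ∅ := Finset.Icc_eq_empty (by omega)
    have e2 : Finset.Icc (x + 1) y = ∅ := Finset.Icc_eq_empty (by omega)
    have e3 : Finset.Ioo y (x + 1) = insert x (Finset.Ioo y x) := by
      ext z; simp only [Finset.mem_Ioo, Finset.mem_insert]; omega
    rw [e1, e2, e3, Finset.sum_insert (by simp)]
    simp

theorem MP_D (h2 : ∀ x, g x * g x * g x = 0) (i : ℕ) : ∀ (k : ℤ) (l : List ℤ),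
    MP T (I 1 i) (D g) (k :: l) = V g T i * D g (k :: l) + Q g T i * G g (i + 1) k * D g (k :: l)
      - Q g T i * (g k * g k) * D g l := by
  induction i with
  | zero => intro k l; simp [I, MP, V, Q]
  | succ i ih =>
    intro k l
    have hi := inv g T h2 i
    rw [I_snoc, MP_snoc, ih, ih]
    have e0 : (1 : ℤ) + i = i + 1 := by ring
    have e1 : (1 : ℤ) + i - 1 = i := by ring
    rw [e1, e0, D_cons_cons, D_cons_cons, G_self]
    have e2 : G g ((i : ℤ) + 1) i = 0 := G_succ_desc g i
    rw [e2, V_succ, Q_succ, ← hi, G_all g (i : ℤ) k, G_all g ((i : ℤ) + 1) k]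
    push_cast
    generalize g (i : ℤ) = a
    generalize g ((i : ℤ) + 1) = b
    generalize V g T i = v
    generalize Q g T i = r
    generalize G g ((i : ℤ) + 1 + 1) k = G'
    generalize D g (k :: l) = d
    generalize D g l = d'
    generalize g k = c
    simp only [add_mul, mul_add, mul_sub, sub_mul, smul_mul_assoc, mul_assoc, mul_zero, zero_mul]
    module

theorem MP_D_last (h2 : ∀ x, g x * g x * g x = 0) (i : ℕ) :
    MP T (I 1 i) (D g) [(i : ℤ)] = V g T i := by
  rw [MP_D g T h2, G_succ_desc]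
  simp

theorem V_eq (i : ℕ) : V g T i =
    ∑ j ∈ Finset.range (i + 1), ((-1 : ℤ) ^ j * T ^ (i - j)) • W g (I 0 j ++ I (j + 1) (i - j)) := by
  induction i with
  | zero => simp [V, I]
  | succ i ih =>
    rw [V_succ, ih, Finset.sum_range_succ _ (i + 1), Finset.sum_mul, Finset.smul_sum]
    congr 1
    · apply Finset.sum_congr rfl
      intro j hj
      have hj' : j ≤ i := by simpa [Nat.lt_succ_iff] using hj
      have e : i + 1 - j = (i - j) + 1 := by omega
      rw [e, I_snoc, ← List.append_assoc, W_append g _ [_]]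
      have e2 : (j : ℤ) + 1 + ((i - j : ℕ) : ℤ) = i + 1 := by
        push_cast [Nat.cast_sub hj']; ring
      rw [e2, smul_mul_assoc, smul_smul, W_cons, W_nil, mul_one]
      congr 1
      ring
    · simp [I]

end Pool.Agent.X294.MT
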