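import Pool.Agent.X83.MT.Refined
import Pool.Agent.X294.MT.Deg

/-!
# The refined numbers and the rational functions
-/

namespace Pool.Agent.X294.MT

open Pool.Agent.X144.MT (nr al_nr al_shift)

/-- the refined numbers, shifted by one -/
noncomputable def Br (N m : ℕ) : ℤ := alL (I 0 m ++ I (m + 1) (N - m))

theorem I_length (c : ℤ) (m : ℕ) : (I c m).length = m := by
  rw [← ofFn_I]; simp

theorem I_map (c d : ℤ) (m : ℕ) : (I c m).map (· + d) = I (c + d) m := by
  rw [← ofFn_I, ← ofFn_I, List.map_ofFn]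
  congr 1
  funext i
  simp only [Function.comp_apply]
  ring

theorem alL_shift (c : ℤ) (l : List ℤ) : alL (l.map (· + c)) = alL l := by
  unfold alL
  rw [List.length_map, al_shift]

theorem alL_nr (l : List ℤ) : alL (nr l) = alL l := by
  unfold alL
  rw [X144.MT.nr_length, al_nr _ l rfl]

theorem Ar_eq (N i : ℕ) : Ar (N + 1) i = Br N i := by
  unfold Ar Br
  rw [← alL_shift 1 (I 0 i ++ I (i + 1) (N - i)), List.map_append, I_map, I_map]
  congr 2

theorem nr_I (c : ℤ) (m : ℕ) : nr (I c m) = I (1 - c - m) m := by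
  induction m generalizing c with
  | zero => rfl
  | succ m ih =>
    have h : nr (I c (m + 1)) = nr (I (c + 1) m) ++ [-c] := by
      rw [I]
      simp [nr]
    rw [h, ih, I_snoc]
    congr 2
    · push_cast; ring
    · push_cast; ring

theorem Br_symm (N m : ℕ) (hm : m ≤ N) : Br N m = Br N (N - m) := by
  unfold Br
  rw [← alL_nr (I 0 m ++ I (m + 1) (N - m)), X144.MT.nr_append, nr_I, nr_I,
    ← alL_shift N, List.map_append, I_map, I_map]
  have e1 : (1 : ℤ) - (m + 1) - ((N - m : ℕ) : ℤ) + N = 0 := by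
    push_cast [Nat.cast_sub hm]; ring
  have e2 : (1 : ℤ) - 0 - m + N = ((N - m : ℕ) : ℤ) + 1 := by
    push_cast [Nat.cast_sub hm]; ring
  have e3 : N - (N - m) = m := by omega
  rw [e1, e2, e3]

theorem refinedN (N : ℕ) : ∀ m ≤ N, (Br N m : ℚ) * ((2 * N).choose N : ℚ) =
    (Br N 0 : ℚ) * ((N + m).choose N : ℚ) * ((2 * N - m).choose N : ℚ) := by
  apply X83.MT.refined N (fun m => (Br N m : ℚ))
  · intro m hm
    rw [Br_symm N m hm]
  · intro x
    have h1 := phi_eq N (x + N + 1)
    have h2 := phi_eq N (-(x + N + 1))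
    have h3 := parity N (x + N + 1)
    rw [h1, h2] at h3
    have h4 : ∀ m : ℕ, be N m (x + N + 1) = Ring.choose (x + m) m := by
      intro m; unfold be; congr 1; ring
    have h5 : ∀ m : ℕ, be N m (-(x + N + 1)) = Ring.choose (-x - 2 * ((N : ℤ) + 1) + m) m := by
      intro m; unfold be; congr 1; ring
    simp only [h4, h5] at h3
    have h6 := congrArg (Int.cast : ℤ → ℚ) h3
    push_cast at h6
    exact h6

theorem L1 (N i : ℕ) (hi : i ≤ N) : ((2 * N - i).choose N : ℚ) *
    ∏ s ∈ Finset.range i, (2 * (N : ℚ) - s) = ((2 * N).choose N : ℚ) *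
      ∏ s ∈ Finset.range i, ((N : ℚ) - s) := by
  induction i with
  | zero => simp
  | succ i ih =>
    have ih' := ih (by omega)
    obtain ⟨t, ht⟩ : ∃ t, 2 * N - i = t + 1 := ⟨2 * N - i - 1, by omega⟩
    have e : 2 * N - (i + 1) = t := by omega
    have hc := Nat.add_one_mul_choose_eq t N
    -- (t+1) * choose t N = choose (t+1) (N+1) * (N+1)
    have hc2 : (t + 1 - N) * (t + 1).choose N = (t + 1) * t.choose N := by
      have h1 := Nat.choose_mul_succ_eq t N
      -- choose t N * (t+1) = choose (t+1) N * (t+1-N)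
      rw [mul_comm (t + 1) (t.choose N), h1]
      ring
    have hc3 : ((N : ℚ) - i) * ((t + 1).choose N : ℚ) = (2 * (N : ℚ) - i) * (t.choose N : ℚ) := by
      have h1 : ((t + 1 - N : ℕ) : ℚ) = (N : ℚ) - i := by
        have : t + 1 - N = N - i := by omega
        rw [this, Nat.cast_sub (by omega)]
      have h2 : ((t + 1 : ℕ) : ℚ) = 2 * (N : ℚ) - i := by
        have : t + 1 = 2 * N - i := by omega
        rw [this, Nat.cast_sub (by omega)]
        push_cast; ring
      rw [← h1, ← h2]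
      exact_mod_cast hc2
    rw [ht] at ih'
    rw [e, Finset.prod_range_succ, Finset.prod_range_succ]
    calc (t.choose N : ℚ) * ((∏ s ∈ Finset.range i, (2 * (N : ℚ) - s)) * (2 * (N : ℚ) - i))
        = ((2 * (N : ℚ) - i) * (t.choose N : ℚ)) * ∏ s ∈ Finset.range i, (2 * (N : ℚ) - s) := by ring
      _ = (N - i) * (((t + 1).choose N : ℚ) * ∏ s ∈ Finset.range i, (2 * (N : ℚ) - s)) := by
          rw [← hc3]; ring
      _ = _ := by rw [ih']; ring

theorem L2 (N i : ℕ) : ((N + i).choose N : ℚ) * (i.factorial : ℚ) =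
    ∏ s ∈ Finset.range i, ((N : ℚ) + 1 + s) := by
  induction i with
  | zero => simp
  | succ i ih =>
    rw [Finset.prod_range_succ, ← ih, Nat.factorial_succ]
    have h : (N + i + 1).choose N * (i + 1) = (N + i).choose N * (N + i + 1) := by
      have h1 := Nat.choose_mul_succ_eq (N + i) N
      have : N + i + 1 - N = i + 1 := by omega
      rw [this] at h1
      exact h1.symm
    have h2 : ((N + i + 1).choose N : ℚ) * ((i : ℚ) + 1) = ((N + i).choose N : ℚ) * (N + i + 1) := by
      exact_mod_cast h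
    push_cast
    rw [show N + (i + 1) = N + i + 1 by ring]
    calc ((N + i + 1).choose N : ℚ) * (((i : ℚ) + 1) * (i.factorial : ℚ))
        = (((N + i + 1).choose N : ℚ) * ((i : ℚ) + 1)) * (i.factorial : ℚ) := by ring
      _ = _ := by rw [h2]; ring

theorem Br_ratio (N i : ℕ) (hi : i ≤ N) : (Br N i : ℚ) * (i.factorial : ℚ) *
    ∏ s ∈ Finset.range i, (2 * (N : ℚ) - s) = (Br N 0 : ℚ) *
      (∏ s ∈ Finset.range i, ((N : ℚ) + 1 + s)) * ∏ s ∈ Finset.range i, ((N : ℚ) - s) := by
  have h1 := refinedN N i hi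
  have h2 := L1 N i hi
  have h3 := L2 N i
  have hne : ((2 * N).choose N : ℚ) ≠ 0 := by
    have : 0 < (2 * N).choose N := Nat.choose_pos (by omega)
    positivity
  apply mul_right_cancel₀ hne
  rw [← h3]
  calc (Br N i : ℚ) * (i.factorial : ℚ) * (∏ s ∈ Finset.range i, (2 * (N : ℚ) - s)) *
        ((2 * N).choose N : ℚ)
      = ((Br N i : ℚ) * ((2 * N).choose N : ℚ)) * (i.factorial : ℚ) *
        (∏ s ∈ Finset.range i, (2 * (N : ℚ) - s)) := by ring
    _ = (Br N 0 : ℚ) * ((N + i).choose N : ℚ) * (i.factorial : ℚ) *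
        (((2 * N - i).choose N : ℚ) * ∏ s ∈ Finset.range i, (2 * (N : ℚ) - s)) := by rw [h1]; ring
    _ = _ := by rw [h2]; ring

/-! ## the polynomials -/

open Polynomial in
/-- the denominator -/
noncomputable def qk (p : ℕ) : Polynomial ℚ :=
  ∏ s ∈ Finset.range p, (C 2 * X - C (2 + (s : ℚ)))

open Polynomial in
/-- the terms of the numerator -/
noncomputable def tm (p i : ℕ) : Polynomial ℚ :=
  C (((p : ℚ) + 1 - i) / (i.factorial : ℚ)) * ((∏ s ∈ Finset.range i, (X + C (s : ℚ))) *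
    ((∏ s ∈ Finset.range i, (X - C (1 + (s : ℚ)))) *
      ∏ s ∈ Finset.Ico i p, (C 2 * X - C (2 + (s : ℚ)))))

/-- the numerator -/
noncomputable def pk (p : ℕ) : Polynomial ℚ := ∑ i ∈ Finset.range (p + 1), tm p i

open Polynomial

theorem lin_natDegree (s : ℚ) : (C 2 * X - C s : Polynomial ℚ).natDegree = 1 := by
  rw [sub_eq_add_neg, ← C_neg]
  exact natDegree_linear (by norm_num)

theorem qk_natDegree (p : ℕ) : (qk p).natDegree = p := by
  unfold qk
  rw [natDegree_prod]
  · simp only [lin_natDegree]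
    simp
  · intro i _ h
    have := lin_natDegree (2 + (i : ℚ))
    rw [h] at this
    simp at this

theorem tm_natDegree_le (p i : ℕ) (hi : i ≤ p) : (tm p i).natDegree ≤ p + i := by
  unfold tm
  refine (natDegree_C_mul_le _ _).trans ?_
  refine natDegree_mul_le.trans ?_
  have h1 : (∏ s ∈ Finset.range i, (X + C (s : ℚ))).natDegree ≤ i := by
    refine (natDegree_prod_le _ _).trans ?_
    simp only [natDegree_X_add_C]
    simp
  have h2 : (∏ s ∈ Finset.range i, (X - C (1 + (s : ℚ)))).natDegree ≤ i := by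
    refine (natDegree_prod_le _ _).trans ?_
    simp only [natDegree_X_sub_C]
    simp
  have h3 : (∏ s ∈ Finset.Ico i p, (C 2 * X - C (2 + (s : ℚ))) : Polynomial ℚ).natDegree ≤ p - i := by
    refine (natDegree_prod_le _ _).trans ?_
    simp only [lin_natDegree]
    simp
  have h4 := natDegree_mul_le (p := (∏ s ∈ Finset.range i, (X - C (1 + (s : ℚ))) : Polynomial ℚ))
    (q := ∏ s ∈ Finset.Ico i p, (C 2 * X - C (2 + (s : ℚ))))
  omega

theorem tm_top (p : ℕ) : (tm p p).natDegree = 2 * p := by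
  unfold tm
  rw [Finset.Ico_self, Finset.prod_empty, mul_one, natDegree_C_mul]
  · have h1 : (∏ s ∈ Finset.range p, (X + C (s : ℚ))).Monic :=
      monic_prod_of_monic _ _ (fun s _ => monic_X_add_C _)
    have h2 : (∏ s ∈ Finset.range p, (X - C (1 + (s : ℚ)))).Monic :=
      monic_prod_of_monic _ _ (fun s _ => monic_X_sub_C _)
    rw [h1.natDegree_mul h2, natDegree_prod_of_monic _ _ (fun s _ => monic_X_add_C _),
      natDegree_prod_of_monic _ _ (fun s _ => monic_X_sub_C _)]
    simp only [natDegree_X_add_C, natDegree_X_sub_C]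
    simp
    ring
  · have : (p.factorial : ℚ) ≠ 0 := by positivity
    have h2 : (p : ℚ) + 1 - p = 1 := by ring
    rw [h2]
    positivity

theorem pk_natDegree (p : ℕ) (hp : 1 ≤ p) : (pk p).natDegree = 2 * p := by
  unfold pk
  rw [Finset.sum_range_succ, natDegree_add_eq_right_of_natDegree_lt, tm_top]
  rw [tm_top]
  refine lt_of_le_of_lt (natDegree_sum_le_of_forall_le (n := p + (p - 1)) _ _ ?_) (by omega)
  intro i hi
  have hi' := Finset.mem_range.1 hi
  exact (tm_natDegree_le p i (by omega)).trans (by omega)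

theorem qk_eval (p : ℕ) (x : ℚ) : (qk p).eval x = ∏ s ∈ Finset.range p, (2 * (x - 1) - s) := by
  unfold qk
  rw [eval_prod]
  apply Finset.prod_congr rfl
  intro s _
  simp only [eval_sub, eval_mul, eval_C, eval_X]
  ring

theorem qk_ne (p N : ℕ) (h : p ≤ N) : (qk p).eval ((N : ℚ) + 1) ≠ 0 := by
  rw [qk_eval, Finset.prod_ne_zero_iff]
  intro s hs
  have hs' := Finset.mem_range.1 hs
  have : (s : ℚ) + 1 ≤ N := by exact_mod_cast (by omega : s + 1 ≤ N)
  have h0 : (0 : ℚ) ≤ N := by positivity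
  have h2 : (0 : ℚ) < 2 * ((N : ℚ) + 1 - 1) - s := by linarith
  exact h2.ne'

theorem main_eval (p N : ℕ) (h : p ≤ N) :
    (∑ i ∈ Finset.range (p + 1), ((p : ℚ) + 1 - i) * (Br N i : ℚ)) * (qk p).eval ((N : ℚ) + 1) =
      (pk p).eval ((N : ℚ) + 1) * (Br N 0 : ℚ) := by
  unfold pk
  rw [eval_finset_sum, Finset.sum_mul, Finset.sum_mul]
  apply Finset.sum_congr rfl
  intro i hi
  have hi' : i ≤ p := by simpa [Nat.lt_succ_iff] using hi
  have h1 := Br_ratio N i (by omega)
  rw [qk_eval]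
  have h2 : ∏ s ∈ Finset.range p, (2 * ((N : ℚ) + 1 - 1) - s) =
      (∏ s ∈ Finset.range i, (2 * (N : ℚ) - s)) * ∏ s ∈ Finset.Ico i p, (2 * (N : ℚ) - s) := by
    rw [← Finset.prod_range_mul_prod_Ico _ hi']
    simp
  have h3 : (tm p i).eval ((N : ℚ) + 1) = ((p : ℚ) + 1 - i) / (i.factorial : ℚ) *
      ((∏ s ∈ Finset.range i, ((N : ℚ) + 1 + s)) * ((∏ s ∈ Finset.range i, ((N : ℚ) - s)) *
        ∏ s ∈ Finset.Ico i p, (2 * (N : ℚ) - s))) := by
    unfold tm
    simp only [eval_mul, eval_C, eval_prod, eval_add, eval_sub, eval_X]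
    congr 2
    congr 1
    · apply Finset.prod_congr rfl
      intro s _; ring
    · apply Finset.prod_congr rfl
      intro s _; ring
  rw [h2, h3]
  have hf : (i.factorial : ℚ) ≠ 0 := by positivity
  field_simp
  have h4 := congrArg (fun z => ((p : ℚ) + 1 - i) * (z * ∏ s ∈ Finset.Ico i p, (2 * (N : ℚ) - s))) h1
  linarith

end Pool.Agent.X294.MT
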