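import Mathlib

/-!
# One row step of the monotone triangle polynomial in a ring of letters

`g : ℤ → A` letters in a (noncommutative) ring, `D w` the extended row sum over the word `w`
(a continuant).  Under the relations
`g x g (x+1) = g x g x + g (x+1) g (x+1)`, `g x ^ 3 = 0`,
`g (x+1) g x g x + g (x+1) g (x+1) g x + g x g x g (x+1) = 0`
we compute `D (1..p, b, b, a, a, b+1..n)` for `a = p+2`, `b = p+3`.
-/

namespace Pool.Agent.X294.MT

variable {A : Type*} [Ring A] (g : ℤ → A)

/-- extended interval sum -/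
noncomputable def G (x y : ℤ) : A :=
  ∑ l ∈ Finset.Icc x y, g l - ∑ l ∈ Finset.Ioo y x, g l

/-- the continuant -/
noncomputable def D : List ℤ → A
  | [] => 0
  | [_] => 1
  | x :: y :: l => G g x y * D (y :: l) - g y * g y * D l

/-- the word -/
def W (l : List ℤ) : A := (l.map g).prod

/-- consecutive letters `c, c+1, …, c+m-1` -/
def I : ℤ → ℕ → List ℤ
  | _, 0 => []
  | c, m + 1 => c :: I (c + 1) m

theorem I_snoc (c : ℤ) (m : ℕ) : I c (m + 1) = I c m ++ [c + m] := by
  induction m generalizing c with
  | zero => simp [I]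
  | succ m ih =>
    rw [I, ih (c + 1), I]
    simp only [List.cons_append, List.cons.injEq, true_and, List.append_cancel_left_eq,
      List.cons.injEq, and_true]
    push_cast; ring

theorem I_append (c : ℤ) (m r : ℕ) : I c (m + r) = I c m ++ I (c + m) r := by
  induction m generalizing c with
  | zero => simp [I]
  | succ m ih =>
    rw [show m + 1 + r = (m + r) + 1 by ring, I, ih (c + 1), I]
    simp only [List.cons_append, List.cons.injEq, true_and, List.append_cancel_left_eq]
    congr 1
    push_cast; ring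

@[simp] theorem D_nil : D g [] = 0 := by simp [D]
@[simp] theorem D_single (x : ℤ) : D g [x] = 1 := by simp [D]
theorem D_cons_cons (x y : ℤ) (l : List ℤ) :
    D g (x :: y :: l) = G g x y * D g (y :: l) - g y * g y * D g l := by simp [D]

@[simp] theorem W_nil : W g [] = 1 := by simp [W]
@[simp] theorem W_cons (x : ℤ) (l : List ℤ) : W g (x :: l) = g x * W g l := by simp [W]
@[simp] theorem W_append (l l' : List ℤ) : W g (l ++ l') = W g l * W g l' := by simp [W]

/-- splitting a continuant -/
theorem D_split (X : List ℤ) (x y : ℤ) (Y : List ℤ) :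
    D g (X ++ x :: y :: Y) = D g (X ++ [x]) * G g x y * D g (y :: Y)
      - D g X * (g x * g x) * D g (y :: Y) - D g (X ++ [x]) * (g y * g y) * D g Y := by
  induction X using List.twoStepInduction with
  | nil => simp [D_cons_cons]
  | singleton z =>
    simp only [List.cons_append, List.nil_append, D_cons_cons, D_single, D_nil, mul_zero, sub_zero,
      mul_one]
    noncomm_ring
  | cons_cons z t X ih1 ih2 =>
    simp only [List.cons_append, D_cons_cons] at ih2 ⊢
    have h1 := ih2 t
    rw [h1, ih1]
    noncomm_ring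

theorem G_self (x : ℤ) : G g x x = g x := by simp [G]

theorem G_succ_desc (x : ℤ) : G g (x + 1) x = 0 := by
  unfold G
  rw [Finset.Icc_eq_empty (by omega)]
  have : Finset.Ioo x (x + 1) = ∅ := by
    ext z; simp only [Finset.mem_Ioo, Finset.notMem_empty, iff_false]; omega
  rw [this]; simp

theorem G_le {x y : ℤ} (h : x ≤ y + 1) : G g x (y + 1) = G g x y + g (y + 1) := by
  unfold G
  have e1 : Finset.Ioo (y + 1) x = ∅ := Finset.Ioo_eq_empty (by omega)
  rw [e1]
  have e2 : Finset.Ioo y x = ∅ := by
    ext z; simp only [Finset.mem_Ioo, Finset.notMem_empty, iff_false]; omega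
  rw [e2]
  have e3 : Finset.Icc x (y + 1) = insert (y + 1) (Finset.Icc x y) := by
    ext z; simp only [Finset.mem_Icc, Finset.mem_insert]; omega
  rw [e3, Finset.sum_insert (by simp)]
  simp only [Finset.sum_empty, sub_zero]
  abel

theorem G_one (x : ℤ) : G g x (x + 1) = g x + g (x + 1) := by
  rw [G_le g (by omega), G_self]

theorem G_two (x : ℤ) : G g x (x + 2) = g x + g (x + 1) + g (x + 2) := by
  rw [show x + 2 = (x + 1) + 1 by ring, G_le g (by omega), G_one]

theorem G_three (x : ℤ) : G g x (x + 3) = g x + g (x + 1) + g (x + 2) + g (x + 3) := by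
  rw [show x + 3 = (x + 2) + 1 by ring, G_le g (by omega), G_two]
  
/-- head rule -/
theorem D_head (c : ℤ) (m : ℕ) :
    D g (I c (m + 1)) = W g (I (c + 1) m) + g c * D g (I (c + 1) m) := by
  induction m generalizing c with
  | zero => simp [I]
  | succ m ih =>
    have e : I c (m + 1 + 1) = c :: (c + 1) :: I (c + 1 + 1) m := rfl
    have e2 : I (c + 1) (m + 1) = (c + 1) :: I (c + 1 + 1) m := rfl
    have h := ih (c + 1)
    rw [e2] at h ⊢
    rw [e, D_cons_cons, G_one, h]
    simp only [W_cons]
    noncomm_ring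

/-- tail rule -/
theorem D_tail (c : ℤ) (m : ℕ) :
    D g (I c (m + 1)) = W g (I c m) + D g (I c m) * g (c + m) := by
  induction m generalizing c with
  | zero => simp [I]
  | succ m ih =>
    cases m with
    | zero => simp [I, D_cons_cons, G_one]
    | succ m =>
      have h1 : I c (m + 1 + 1 + 1) = I c (m + 1) ++ (c + (m + 1 : ℕ)) :: (c + (m + 1 + 1 : ℕ)) :: [] := by
        rw [I_snoc, I_snoc]; simp; ring
      have h2 : I c (m + 1 + 1) = I c (m + 1) ++ [c + (m + 1 : ℕ)] := I_snoc c (m + 1)
      rw [h1, D_split, ← h2, ih c]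
      have e : c + ((m + 1 + 1 : ℕ) : ℤ) = (c + ((m + 1 : ℕ) : ℤ)) + 1 := by push_cast; ring
      rw [e, G_one, h2]
      simp only [D_single, D_nil, mul_one, mul_zero, sub_zero, W_append, W_cons, W_nil]
      noncomm_ring

/-! ## the key computation -/

section key
variable (h1 : ∀ x, g x * g (x + 1) = g x * g x + g (x + 1) * g (x + 1))
  (h2 : ∀ x, g x * g x * g x = 0)
  (h3 : ∀ x, g (x + 1) * g x * g x + g (x + 1) * g (x + 1) * g x + g x * g x * g (x + 1) = 0)

/-- `D (a :: I b m)` for `b = a + 2`  -/
theorem D_skip (a : ℤ) (m : ℕ) :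
    D g (a :: I (a + 2) m) = (g a + g (a + 1)) * D g (I (a + 2) m) + W g (I (a + 2) m) := by
  cases m with
  | zero => simp [I]
  | succ m =>
    have h := D_head g (a + 2) m
    have e : I (a + 2) (m + 1) = (a + 2) :: I (a + 2 + 1) m := rfl
    rw [e] at h ⊢
    rw [D_cons_cons, G_two, h]
    simp only [W_cons]
    noncomm_ring

/-- `D (1..p, p+3)` -/
theorem D_skip_left (c : ℤ) (p : ℕ) :
    D g (I c p ++ [c + p + 2]) =
      D g (I c p) * (g (c + p) + g (c + p + 1) + g (c + p + 2)) + W g (I c p) := by
  cases p with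
  | zero => simp [I]
  | succ p =>
    have h := D_tail g c p
    have e : I c (p + 1) = I c p ++ [c + p] := I_snoc c p
    rw [e, List.append_assoc, List.cons_append, List.nil_append, D_split, ← e, h]
    have e2 : c + ((p + 1 : ℕ) : ℤ) + 2 = (c + p) + 3 := by push_cast; ring
    have e3 : c + ((p + 1 : ℕ) : ℤ) = (c + p) + 1 := by push_cast; ring
    have e4 : (c + p : ℤ) + 1 + 1 = (c + p) + 2 := by ring
    rw [e2, e3, G_three, e4]
    simp only [D_single, D_nil, mul_one, mul_zero, sub_zero, e, W_append, W_cons, W_nil]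
    noncomm_ring

include h1 h2 h3 in
theorem key (c : ℤ) (p r : ℕ) :
    D g (I c p ++ (c + p + 2) :: (c + p + 2) :: (c + p + 1) :: (c + p + 1) :: I (c + p + 3) r) =
      (D g (I c p) * g (c + p) + W g (I c p)) * (g (c + p + 1) * g (c + p + 1)) * g (c + p + 2)
        * W g (I (c + p + 3) r) := by
  set m : ℤ := c + p with hm
  have e0 : I c p ++ (m + 2) :: (m + 2) :: (m + 1) :: (m + 1) :: I (m + 3) r =
      (I c p ++ [m + 2]) ++ (m + 2) :: (m + 1) :: ((m + 1) :: I (m + 3) r) := by simp
  rw [e0, D_split]
  have g0 : G g (m + 2) (m + 1) = 0 := by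
    have := G_succ_desc g (m + 1)
    rwa [show m + 1 + 1 = m + 2 by ring] at this
  have d1 : D g (I c p ++ [m + 2] ++ [m + 2]) =
      D g (I c p ++ [m + 2]) * g (m + 2) - D g (I c p) * (g (m + 2) * g (m + 2)) := by
    rw [List.append_assoc, List.cons_append, List.nil_append, D_split, G_self]
    simp
  have d2 : D g ((m + 1) :: (m + 1) :: I (m + 3) r) =
      g (m + 1) * D g ((m + 1) :: I (m + 3) r) - g (m + 1) * g (m + 1) * D g (I (m + 3) r) := by
    rw [D_cons_cons, G_self]
  have d3 := D_skip g (m + 1) r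
  rw [show m + 1 + 2 = m + 3 by ring, show m + 1 + 1 = m + 2 by ring] at d3
  have d4 := D_skip_left g c p
  rw [← hm] at d4
  rw [g0, d1, d2, d3]
  have q1 : g (m + 1) * g (m + 2) = g (m + 1) * g (m + 1) + g (m + 2) * g (m + 2) := by
    have := h1 (m + 1)
    rwa [show m + 1 + 1 = m + 2 by ring] at this
  have q2 := h2 (m + 1)
  have q2' := h2 (m + 2)
  have q3 : g (m + 2) * g (m + 1) * g (m + 1) + g (m + 2) * g (m + 2) * g (m + 1) +
      g (m + 1) * g (m + 1) * g (m + 2) = 0 := by
    have := h3 (m + 1)
    rwa [show m + 1 + 1 = m + 2 by ring] at this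
  generalize D g (I c p ++ [m + 2]) = L at *
  generalize D g (I c p) = α at *
  generalize W g (I c p) = ω at *
  generalize D g (I (m + 3) r) = γ at *
  generalize W g (I (m + 3) r) = ζ at *
  generalize g (m + 1) = a at *
  generalize g (m + 2) = b at *
  generalize g m = x at *
  -- consequences
  have r1 : a * b * b = a * a * b := by
    rw [q1, add_mul, q2', add_zero]
  have r2 : a * a * b * b = 0 := by
    have : a * a * b * b = a * (a * b * b) := by noncomm_ring
    rw [this, r1]
    have : a * (a * a * b) = (a * a * a) * b := by noncomm_ring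
    rw [this, q2, zero_mul]
  have r3 : b * b * a + b * a * a = - (a * a * b) := by
    rw [eq_neg_iff_add_eq_zero, ← q3]; abel
  have r4 : b * (a * a * b) = - (b * b * a * a) := by
    have : a * a * b = - (b * b * a + b * a * a) := by rw [r3, neg_neg]
    rw [this]
    have : b * -(b * b * a + b * a * a) = - ((b * b * b) * a) - b * b * a * a := by noncomm_ring
    rw [this, q2', zero_mul, neg_zero, zero_sub]
  have r5 : b * b * (a * a * b) = 0 := by
    have : b * b * (a * a * b) = b * (b * (a * a * b)) := by noncomm_ring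
    rw [this, r4]
    have : b * -(b * b * a * a) = - ((b * b * b) * a * a) := by noncomm_ring
    rw [this, q2']; simp
  have main : (L * b - α * (b * b)) * 0 * (a * ((a + b) * γ + ζ) - a * a * γ) -
        L * (b * b) * (a * ((a + b) * γ + ζ) - a * a * γ) -
      (L * b - α * (b * b)) * (a * a) * ((a + b) * γ + ζ) =
      - L * (b * b * a + b * a * a) * (b * γ + ζ) + α * (b * b * a * a) * ζ
        + α * (b * b * (a * a * b)) * γ + α * (b * b) * (a * a * a) * γ
        - L * b * (a * a * a) * γ := by
    noncomm_ring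
  rw [main, r3, r5, q2]
  have main2 : - L * -(a * a * b) * (b * γ + ζ) = L * (a * a * b * b) * γ + L * (a * a * b) * ζ := by
    noncomm_ring
  rw [main2, r2, d4]
  have main3 : L * 0 * γ + (α * (x + a + b) + ω) * (a * a * b) * ζ + α * (b * b * a * a) * ζ
      + α * 0 * γ + α * (b * b) * 0 * γ - L * b * 0 * γ
      = (α * x + ω) * (a * a) * b * ζ + α * (a * a * a) * b * ζ
        + α * (b * (a * a * b)) * ζ + α * (b * b * a * a) * ζ := by
    noncomm_ring
  rw [← d4] at main3 ⊢
  rw [main3, q2, r4]
  noncomm_ring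

include h1 h2 in
theorem sumU (c : ℤ) (p : ℕ) :
    ∑ j ∈ Finset.range (p + 1), W g (I c j) * g (c + j + 1) * W g (I (c + j + 1) (p - j + 1)) =
      (D g (I c p) * g (c + p) + W g (I c p)) * (g (c + p + 1) * g (c + p + 1)) := by
  induction p with
  | zero => simp [I]
  | succ p ih =>
    rw [Finset.sum_range_succ]
    have e1 : ∑ j ∈ Finset.range (p + 1),
        W g (I c j) * g (c + j + 1) * W g (I (c + j + 1) (p + 1 - j + 1)) =
        (∑ j ∈ Finset.range (p + 1), W g (I c j) * g (c + j + 1) *
          W g (I (c + j + 1) (p - j + 1))) * g (c + p + 2) := by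
      rw [Finset.sum_mul]
      apply Finset.sum_congr rfl
      intro j hj
      have hj' : j ≤ p := by simpa [Nat.lt_succ_iff] using hj
      have e : p + 1 - j + 1 = (p - j + 1) + 1 := by omega
      rw [e, I_snoc, W_append]
      have e2 : c + (j : ℤ) + 1 + ((p - j + 1 : ℕ) : ℤ) = c + p + 2 := by
        push_cast [Nat.cast_sub hj']; ring
      rw [e2]
      simp only [W_cons, W_nil, mul_one]
      noncomm_ring
    rw [e1, ih, D_tail]
    have e3 : (c + ((p + 1 : ℕ) : ℤ)) = c + p + 1 := by push_cast; ring
    have e4 : p + 1 - (p + 1) + 1 = 1 := by omega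
    rw [e3, e4]
    have e5 : c + (p : ℤ) + 1 + 1 = c + p + 2 := by ring
    rw [e5]
    have q1 := h1 (c + p + 1)
    have q2 := h2 (c + p + 2)
    rw [e5] at q1
    have r1 : g (c + p + 1) * (g (c + p + 2) * g (c + p + 2)) =
        g (c + p + 1) * g (c + p + 1) * g (c + p + 2) := by
      rw [← mul_assoc, q1, add_mul, q2, add_zero]
    have r2 : (W g (I c p) + D g (I c p) * g (c + p)) * g (c + p + 1) *
        (g (c + p + 2) * g (c + p + 2)) = (W g (I c p) + D g (I c p) * g (c + p)) *
        (g (c + p + 1) * g (c + p + 1) * g (c + p + 2)) := by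
      rw [mul_assoc, r1]
    have r3 : W g (I (c + p + 2) 1) = g (c + p + 2) := by simp [I]
    have h4 := add_mul ((W g (I c p) + D g (I c p) * g (c + p)) * g (c + p + 1))
      (W g (I c (p + 1))) (g (c + p + 2) * g (c + p + 2))
    rw [r3, h4, r2]
    noncomm_ring

include h2 in
theorem D_u (c : ℤ) (j q : ℕ) :
    D g (I c j ++ (c + j + 1) :: I (c + j + 1) (q + 1)) =
      D g (I c (j + 1)) * W g (I (c + j + 1) (q + 1)) := by
  set s : ℤ := c + j + 1 with hs
  have e : I s (q + 1) = s :: I (s + 1) q := rfl
  rw [e, D_split, G_self, ← e, D_head]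
  have hL : D g (I c j ++ [s]) = D g (I c j) * (g (c + j) + g s) + W g (I c j) := by
    cases j with
    | zero => simp [I]
    | succ p =>
      have h := D_tail g c p
      have e : I c (p + 1) = I c p ++ [c + p] := I_snoc c p
      rw [e, List.append_assoc, List.cons_append, List.nil_append, D_split, ← e, h]
      have e2 : s = (c + p) + 2 := by rw [hs]; push_cast; ring
      have e3 : c + ((p + 1 : ℕ) : ℤ) = (c + p) + 1 := by push_cast; ring
      rw [e2, e3, G_two]
      simp only [D_single, D_nil, mul_one, mul_zero, sub_zero, e, W_append, W_cons, W_nil]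
      noncomm_ring
  have q2 := h2 s
  rw [hL, D_tail, e, W_cons]
  generalize D g (I c j) = α
  generalize W g (I c j) = ω
  generalize D g (I (s + 1) q) = γ
  generalize W g (I (s + 1) q) = ζ
  generalize g (c + j) = x
  generalize g s = b at *
  have : (α * (x + b) + ω) * b * (ζ + b * γ) - α * (b * b) * (ζ + b * γ) -
      (α * (x + b) + ω) * (b * b) * γ = (ω + α * x) * (b * ζ) - α * (b * b * b) * γ := by
    noncomm_ring
  rw [this, q2]
  simp

theorem D_sum (c : ℤ) (j : ℕ) :
    D g (I c (j + 1)) = ∑ i ∈ Finset.range (j + 1), W g (I c i ++ I (c + i + 1) (j - i)) := by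
  induction j with
  | zero => simp [I]
  | succ j ih =>
    rw [D_tail, ih, Finset.sum_range_succ _ (j + 1), Finset.sum_mul]
    have e : I (c + ((j + 1 : ℕ) : ℤ) + 1) (j + 1 - (j + 1)) = [] := by simp [I]
    rw [e, List.append_nil, add_comm]
    congr 1
    apply Finset.sum_congr rfl
    intro i hi
    have hi' : i ≤ j := by simpa [Nat.lt_succ_iff] using hi
    have e : j + 1 - i = (j - i) + 1 := by omega
    rw [e, I_snoc, ← List.append_assoc, W_append g _ [_]]
    have e2 : c + (i : ℤ) + 1 + ((j - i : ℕ) : ℤ) = c + (j + 1 : ℕ) := by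
      push_cast [Nat.cast_sub hi']; ring
    rw [e2]; simp

end key

end Pool.Agent.X294.MT
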