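import Pool.Agent.X294.MT.Link

/-!
# The symmetric function relation
-/

namespace Pool.Agent.X294.MT

open Pool.Agent.X177.MT (GG IL mem_IL IsPoly isPoly_W rf rotation translation
  reflection ev SS ev_GG_prod ev_monomial_mul)
open MvPolynomial


/-- the coefficient of a choice -/
def cb (T : ℤ) (b : Bool) : ℤ := if b then T + 1 else -1

/-- the exponent of a choice -/
def nb (b : Bool) : ℕ := if b then 1 else 0

theorem MP_ofFn (T : ℤ) (n : ℕ) : ∀ (k : Fin n → ℤ) (F : List ℤ → ℤ),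
    MP T (List.ofFn k) F [] = ∑ b : Fin n → Bool, (∏ q, cb T (b q)) *
      F (List.ofFn fun q => k q - 1 + nb (b q)) := by
  induction n with
  | zero =>
    intro k F
    simp [MP]
  | succ n ih =>
    intro k F
    rw [List.ofFn_succ, MP_cons, ih, ih, X144.MT.sum_cons_bool]
    simp only [Fin.prod_univ_succ, Fin.cons_zero, Fin.cons_succ, List.ofFn_succ, cb, nb]
    rw [smul_eq_mul, Finset.mul_sum, sub_eq_add_neg, ← Finset.sum_neg_distrib]
    congr 1
    · apply Finset.sum_congr rfl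
      intro b _
      simp only [if_true]
      rw [← mul_assoc]
      congr 3
      push_cast; ring
    · apply Finset.sum_congr rfl
      intro b _
      simp

theorem prod_expand (T : ℤ) (n : ℕ) : (∏ q : Fin n, (C (T : ℚ) + C ((T : ℚ) + 1) * (X q - 1)) :
    MvPolynomial (Fin n) ℚ) = ∑ b : Fin n → Bool, ((∏ q, cb T (b q) : ℤ) : ℚ) •
      monomial (Finsupp.equivFunOnFinite.symm fun q => nb (b q)) (1 : ℚ) := by
  have h : ∀ q : Fin n, (C (T : ℚ) + C ((T : ℚ) + 1) * (X q - 1) : MvPolynomial (Fin n) ℚ) =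
      ∑ b : Bool, C (cb T b : ℚ) * X q ^ nb b := by
    intro q
    rw [Fintype.sum_bool]
    simp only [cb, nb, if_true, pow_one]
    push_cast
    simp
    ring
  rw [Finset.prod_congr rfl (fun q _ => h q), Finset.prod_univ_sum]
  simp only [Fintype.piFinset_univ]
  apply Finset.sum_congr rfl
  intro b _
  rw [Finset.prod_mul_distrib, ← map_prod, smul_eq_C_mul]
  congr 1
  · push_cast; rfl
  · rw [monomial_eq, Finsupp.prod_fintype _ _ (by simp)]
    simp

theorem W_mix (T : ℤ) (n : ℕ) (k : Fin n → ℤ) :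
    ∑ b : Fin n → Bool, ((∏ q, cb T (b q) : ℤ) : ℚ) *
      X177.MT.W (GG n) (fun q => k q - 1 + nb (b q)) = (T : ℚ) ^ n * X177.MT.W (GG n) k := by
  have h1 := ev_GG_prod (fun q => k q - 1) (SS n) (C (T : ℚ)) (C ((T : ℚ) + 1))
  rw [prod_expand, Finset.mul_sum, map_sum] at h1
  have h2 : ev (GG n) (fun q => k q - 1) (SS n * C (T : ℚ) ^ n) =
      (T : ℚ) ^ n * X177.MT.W (GG n) k := by
    have e : SS n * C (T : ℚ) ^ n = ((T : ℚ) ^ n) • SS n := by
      rw [smul_eq_C_mul, map_pow]; ring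
    rw [e, map_smul, smul_eq_mul]
    congr 1
    have := translation n k (-1)
    rw [← this]
    rfl
  rw [h2] at h1
  rw [← h1]
  apply Finset.sum_congr rfl
  intro b _
  rw [mul_smul_comm, map_smul, smul_eq_mul]
  congr 1
  rw [mul_comm, ev_monomial_mul]
  rfl

theorem ML (T : ℤ) (l : List ℤ) : MP T l alL [] = T ^ l.length * alL l := by
  obtain ⟨n, k, rfl⟩ : ∃ (n : ℕ) (k : Fin n → ℤ), l = List.ofFn k :=
    ⟨l.length, fun i => l.get i, by simp⟩
  rw [MP_ofFn, List.length_ofFn]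
  have h : ∀ k : Fin n → ℤ, (alL (List.ofFn k) : ℚ) = X177.MT.W (GG n) k := by
    intro k
    rw [← al_W]
    unfold alL
    rw [List.length_ofFn]
  have h2 := W_mix T n k
  have h3 : ((∑ b : Fin n → Bool, (∏ q, cb T (b q)) *
      alL (List.ofFn fun q => k q - 1 + nb (b q)) : ℤ) : ℚ) = ((T ^ n * alL (List.ofFn k) : ℤ) : ℚ) := by
    push_cast
    simp only [h]
    rw [← h2]
    push_cast
    rfl
  exact_mod_cast h3

end Pool.Agent.X294.MT
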