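import Pool.Agent.X144.MT.Final
import Pool.Agent.X294.MT.Mix

/-!
# Transport of the word calculus to the monotone triangle function
-/

namespace Pool.Agent.X294.MT

/-- the monotone triangle function on lists of every length -/
noncomputable def alL (w : List ℤ) : ℤ := X144.MT.al w.length w

/-- the relations between letters -/
def Rel (f : List ℤ → ℤ) : Prop :=
  (∀ p s x, f (p ++ x :: (x + 1) :: s) = f (p ++ x :: x :: s) + f (p ++ (x + 1) :: (x + 1) :: s)) ∧
  (∀ p s x, f (p ++ x :: x :: x :: s) = 0) ∧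
  (∀ p s x, f (p ++ (x + 1) :: x :: x :: s) + f (p ++ (x + 1) :: (x + 1) :: x :: s)
    + f (p ++ x :: x :: (x + 1) :: s) = 0)

/-- the functions satisfying the relations -/
def M : AddSubgroup (List ℤ → ℤ) where
  carrier := {f | Rel f}
  zero_mem' := by
    refine ⟨fun p s x => ?_, fun p s x => ?_, fun p s x => ?_⟩ <;> simp
  add_mem' := by
    rintro f g ⟨f1, f2, f3⟩ ⟨g1, g2, g3⟩
    refine ⟨fun p s x => ?_, fun p s x => ?_, fun p s x => ?_⟩
    · simp only [Pi.add_apply]; rw [f1, g1]; ring
    · simp only [Pi.add_apply]; rw [f2, g2]; ring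
    · simp only [Pi.add_apply]; linear_combination f3 p s x + g3 p s x
  neg_mem' := by
    rintro f ⟨f1, f2, f3⟩
    refine ⟨fun p s x => ?_, fun p s x => ?_, fun p s x => ?_⟩
    · simp only [Pi.neg_apply]; rw [f1]; ring
    · simp only [Pi.neg_apply]; rw [f2]; ring
    · simp only [Pi.neg_apply]; linear_combination - f3 p s x

/-- appending a letter -/
def lt (x : ℤ) : AddMonoid.End M where
  toFun f := ⟨fun w => f.1 (w ++ [x]), by
    obtain ⟨f, f1, f2, f3⟩ := f
    refine ⟨fun p s y => ?_, fun p s y => ?_, fun p s y => ?_⟩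
    · simpa using f1 p (s ++ [x]) y
    · simpa using f2 p (s ++ [x]) y
    · simpa using f3 p (s ++ [x]) y⟩
  map_zero' := by apply Subtype.ext; rfl
  map_add' f g := by apply Subtype.ext; rfl

theorem lt_apply (x : ℤ) (f : M) (w : List ℤ) : (lt x f).1 w = f.1 (w ++ [x]) := rfl

theorem end_ext {a b : AddMonoid.End M} (h : ∀ (f : M) (w : List ℤ), (a f).1 w = (b f).1 w) :
    a = b := by
  apply AddMonoidHom.ext
  intro f
  apply Subtype.ext
  funext w
  exact h f w

theorem mul_ap (a b : AddMonoid.End M) (f : M) (w : List ℤ) : ((a * b) f).1 w = (a (b f)).1 w := rfl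
theorem add_ap (a b : AddMonoid.End M) (f : M) (w : List ℤ) :
    ((a + b) f).1 w = (a f).1 w + (b f).1 w := rfl
theorem sub_ap (a b : AddMonoid.End M) (f : M) (w : List ℤ) :
    ((a - b) f).1 w = (a f).1 w - (b f).1 w := rfl
theorem zero_ap (f : M) (w : List ℤ) : ((0 : AddMonoid.End M) f).1 w = 0 := rfl
theorem one_ap (f : M) (w : List ℤ) : ((1 : AddMonoid.End M) f).1 w = f.1 w := rfl

/-- evaluation of an operator at a function and a list, as an additive map -/
def evl (f : M) (w : List ℤ) : AddMonoid.End M →+ ℤ where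
  toFun a := (a f).1 w
  map_zero' := rfl
  map_add' _ _ := rfl

theorem evl_ap (f : M) (w : List ℤ) (a : AddMonoid.End M) : evl f w a = (a f).1 w := rfl

theorem r1 (x : ℤ) : lt x * lt (x + 1) = lt x * lt x + lt (x + 1) * lt (x + 1) := by
  apply end_ext
  intro f w
  have h := f.2.1 w [] x
  simp only [add_ap, mul_ap, lt_apply, List.append_assoc, List.cons_append, List.nil_append] at h ⊢
  exact h

theorem r2 (x : ℤ) : lt x * lt x * lt x = 0 := by
  apply end_ext
  intro f w
  have h := f.2.2.1 w [] x
  simp only [mul_ap, lt_apply, List.append_assoc, List.cons_append, List.nil_append] at h ⊢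
  exact h

theorem r3 (x : ℤ) : lt (x + 1) * lt x * lt x + lt (x + 1) * lt (x + 1) * lt x
    + lt x * lt x * lt (x + 1) = 0 := by
  apply end_ext
  intro f w
  have h := f.2.2.2 w [] x
  simp only [add_ap, mul_ap, lt_apply, List.append_assoc, List.cons_append, List.nil_append] at h ⊢
  exact h

theorem W_ap (l : List ℤ) : ∀ (f : M) (w : List ℤ), ((W lt l) f).1 w = f.1 (w ++ l) := by
  induction l with
  | nil => intro f w; simp [one_ap]
  | cons x l ih =>
    intro f w
    rw [W_cons, mul_ap, lt_apply, ih]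
    simp

theorem sum_ap {ι : Type*} (s : Finset ι) (a : ι → AddMonoid.End M) (f : M) (w : List ℤ) :
    ((∑ i ∈ s, a i) f).1 w = ∑ i ∈ s, ((a i) f).1 w := by
  rw [← evl_ap, map_sum]
  rfl

/-- the extended interval sum of a function -/
theorem E_eq (h : ℤ → ℤ) (x y : ℤ) :
    ∑ l ∈ Finset.Icc x y, h l - ∑ l ∈ Finset.Ioo y x, h l = X144.MT.E h x y + h y := by
  have key : ∀ x y : ℤ, ∑ l ∈ Finset.Icc x (y + 1), h l - ∑ l ∈ Finset.Ioo (y + 1) x, h l =
      (∑ l ∈ Finset.Icc x y, h l - ∑ l ∈ Finset.Ioo y x, h l) + h (y + 1) := by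
    intro x y
    rcases le_or_gt x (y + 1) with hxy | hxy
    · have e1 : Finset.Ioo (y + 1) x = ∅ := Finset.Ioo_eq_empty (by omega)
      have e2 : Finset.Ioo y x = ∅ := by
        ext z; simp only [Finset.mem_Ioo, Finset.notMem_empty, iff_false]; omega
      have e3 : Finset.Icc x (y + 1) = insert (y + 1) (Finset.Icc x y) := by
        ext z; simp only [Finset.mem_Icc, Finset.mem_insert]; omega
      rw [e1, e2, e3, Finset.sum_insert (by simp)]
      simp; ring
    · have e1 : Finset.Icc x (y + 1) = ∅ := Finset.Icc_eq_empty (by omega)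
      have e2 : Finset.Icc x y = ∅ := Finset.Icc_eq_empty (by omega)
      have e3 : Finset.Ioo y x = insert (y + 1) (Finset.Ioo (y + 1) x) := by
        ext z; simp only [Finset.mem_Ioo, Finset.mem_insert]; omega
      rw [e1, e2, e3, Finset.sum_insert (by simp)]
      simp
  have hP := X144.MT.P_succ h
  -- compare along `y`
  have main : ∀ n : ℕ, ∀ y : ℤ,
      (∑ l ∈ Finset.Icc x (y + n), h l - ∑ l ∈ Finset.Ioo (y + n) x, h l) -
        (X144.MT.E h x (y + n) + h (y + n)) =
      (∑ l ∈ Finset.Icc x y, h l - ∑ l ∈ Finset.Ioo y x, h l) - (X144.MT.E h x y + h y) := by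
    intro n
    induction n with
    | zero => intro y; simp
    | succ n ih =>
      intro y
      have h1 := ih y
      have h2 := key x (y + n)
      have h3 := hP (y + n)
      have e : y + ((n + 1 : ℕ) : ℤ) = y + n + 1 := by push_cast; ring
      rw [e, h2]
      simp only [X144.MT.E] at h1 ⊢
      rw [h3]
      linarith
  have h0 : (∑ l ∈ Finset.Icc x x, h l - ∑ l ∈ Finset.Ioo x x, h l) -
      (X144.MT.E h x x + h x) = 0 := by
    simp [X144.MT.E]
  rcases le_total x y with hxy | hxy
  · obtain ⟨n, rfl⟩ := Int.le.dest hxy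
    have := main n x
    linarith
  · obtain ⟨n, rfl⟩ := Int.le.dest hxy
    have := main n y
    linarith

theorem D_ap_aux (n : ℕ) : ∀ (r : List ℤ), r.length ≤ n → ∀ (k : ℤ) (f : M) (w : List ℤ),
    ((D lt (k :: r)) f).1 w = X144.MT.T (fun s => f.1 (w ++ s)) k r := by
  induction n with
  | zero =>
    intro r hr k f w
    have : r = [] := List.length_eq_zero_iff.1 (by omega)
    subst this
    simp [X144.MT.T_nil]
  | succ n ih0 =>
    intro r hr k f w
    rcases r with _ | ⟨k2, r⟩
    · simp [X144.MT.T_nil]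
    have hr' : r.length ≤ n := by simpa using hr
    have ih := ih0 r hr'
    rw [D_cons_cons, sub_ap, mul_ap]
    have hG : ∀ u : M, (G lt k k2 u).1 w =
        X144.MT.E (fun l => u.1 (w ++ [l])) k k2 + u.1 (w ++ [k2]) := by
      intro u
      rw [← E_eq (fun l => u.1 (w ++ [l]))]
      unfold G
      rw [sub_ap, sum_ap, sum_ap]
      rfl
    rw [hG, ih, X144.MT.T_cons]
    have h1 : (fun l => ((D lt (k2 :: r)) f).1 (w ++ [l])) =
        (fun l => X144.MT.T (fun s => (fun s => f.1 (w ++ s)) (l :: s)) k2 r) := by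
      funext l
      rw [ih]
      simp
    rw [h1]
    have h2 : ((lt k2 * lt k2 * D lt r) f).1 w = ((D lt r) f).1 (w ++ [k2] ++ [k2]) := rfl
    rw [h2]
    have h3 : X144.MT.T (fun s => f.1 (w ++ k2 :: s)) (k2 + 1) r =
        X144.MT.T (fun s => f.1 (w ++ k2 :: s)) k2 r - ((D lt r) f).1 (w ++ [k2] ++ [k2]) := by
      rcases r with _ | ⟨k3, r⟩
      · simp [X144.MT.T_nil, D_nil, zero_ap]
      · rw [X144.MT.T_cons, X144.MT.T_cons]
        simp only [X144.MT.E]
        rw [X144.MT.P_succ]
        have h4 : ((D lt (k3 :: r)) f).1 (w ++ [k2] ++ [k2]) =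
            X144.MT.T (fun s => f.1 (w ++ k2 :: k2 :: s)) k3 r := by
          rw [ih0 r (by simp at hr'; omega)]
          simp
        rw [h4]
        ring
    rw [h3]
    simp
    ring

theorem D_ap (k : ℤ) (r : List ℤ) (f : M) (w : List ℤ) :
    ((D lt (k :: r)) f).1 w = X144.MT.T (fun s => f.1 (w ++ s)) k r :=
  D_ap_aux r.length r le_rfl k f w

/-! ## the function `alL` -/

open X144.MT (al) in
theorem rel_alL : Rel alL := by
  have hr1 : ∀ (p s : List ℤ) (x : ℤ), alL (p ++ x :: (x + 1) :: s) =
      alL (p ++ x :: x :: s) + alL (p ++ (x + 1) :: (x + 1) :: s) := by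
    intro p s x
    have h := X144.MT.RR_al (p.length + (s.length + 1 + 1)) p s x x
    simp only [X144.MT.V] at h
    simp only [alL, List.length_append, List.length_cons]
    linarith
  refine ⟨hr1, fun p s x => ?_, fun p s x => ?_⟩
  · simp only [alL, List.length_append, List.length_cons]
    exact X144.MT.al_triple _ p s (by ring) x
  · have h1 := X144.MT.al_three (p.length + s.length + 3) p s rfl x
    have h2 := X144.MT.al_001_011 (p.length + s.length + 3) p s rfl x
    have h3 : al (p.length + s.length + 3) (p ++ (x + 1) :: x :: (x + 1) :: s) =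
        al (p.length + s.length + 3) (p ++ (x + 1) :: x :: x :: s) := by
      have h := hr1 (p ++ [x + 1]) s x
      have ht := X144.MT.al_triple (p.length + s.length + 3) p s rfl (x + 1)
      have a : ∀ u v : ℤ, alL (p ++ [x + 1] ++ u :: v :: s) =
          al (p.length + s.length + 3) (p ++ (x + 1) :: u :: v :: s) := by
        intro u v
        unfold alL
        have e1 : (p ++ [x + 1] ++ u :: v :: s) = p ++ (x + 1) :: u :: v :: s := by simp
        have e2 : (p ++ (x + 1) :: u :: v :: s).length = p.length + s.length + 3 := by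
          simp only [List.length_append, List.length_cons]; omega
        rw [e1, e2]
      rw [a, a, a, ht, add_zero] at h
      exact h
    simp only [alL, List.length_append, List.length_cons]
    have e : p.length + (s.length + 1 + 1 + 1) = p.length + s.length + 3 := by ring
    rw [e]
    linarith

/-- `alL` as an element of `M` -/
noncomputable def aM : M := ⟨alL, rel_alL⟩

theorem T_congr_len : ∀ (r : List ℤ) (A B : List ℤ → ℤ) (k : ℤ),
    (∀ s : List ℤ, s.length = r.length → A s = B s) → X144.MT.T A k r = X144.MT.T B k r := by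
  intro r
  induction r with
  | nil => intro A B k h; rw [X144.MT.T_nil, X144.MT.T_nil]; exact h [] rfl
  | cons k2 r ih =>
    intro A B k h
    rw [X144.MT.T_cons, X144.MT.T_cons]
    have h1 : ∀ l : ℤ, X144.MT.T (fun s => A (l :: s)) k2 r = X144.MT.T (fun s => B (l :: s)) k2 r :=
      fun l => ih _ _ _ (fun s hs => h (l :: s) (by simp [hs]))
    have h2 : X144.MT.T (fun s => A (k2 :: s)) (k2 + 1) r =
        X144.MT.T (fun s => B (k2 :: s)) (k2 + 1) r :=
      ih _ _ _ (fun s hs => h (k2 :: s) (by simp [hs]))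
    rw [X144.MT.E_congr h1, h2]

/-- the row recursion -/
theorem alL_eq (k : ℤ) (r : List ℤ) : alL (k :: r) = ((D lt (k :: r)) aM).1 [] := by
  rw [D_ap]
  unfold alL
  rw [List.length_cons]
  show X144.MT.T (X144.MT.al r.length) k r = _
  apply T_congr_len
  intro s hs
  simp [aM, alL, hs]

theorem alL_eq' {l : List ℤ} (hl : l ≠ []) : alL l = ((D lt l) aM).1 [] := by
  rcases l with _ | ⟨k, r⟩
  · exact absurd rfl hl
  · exact alL_eq k r

end Pool.Agent.X294.MT
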